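import Mathlib

/-! # The duplication map on triples `a + b + c = 0` -/

set_option autoImplicit false

open Finset

namespace Q241.AC

/-- the radical -/
def R (m : ℕ) : ℕ := ∏ p ∈ m.primeFactors, p

lemma R_pos (m : ℕ) : 0 < R m := prod_pos fun _ hp => (Nat.prime_of_mem_primeFactors hp).pos

lemma R_one_le (m : ℕ) : (1 : ℝ) ≤ R m := by exact_mod_cast R_pos m

lemma R_le {n : ℕ} (hn : n ≠ 0) : R n ≤ n :=
  Nat.le_of_dvd (Nat.pos_of_ne_zero hn) (Nat.prod_primeFactors_dvd n)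

lemma R_cube {m n : ℕ} (hm : m ≠ 0) (hn : n ≠ 0) : R (m * n ^ 3) ≤ R m * n := by
  have h1 : (m * n ^ 3).primeFactors = m.primeFactors ∪ n.primeFactors := by
    rw [Nat.primeFactors_mul hm (pow_ne_zero 3 hn), Nat.primeFactors_pow n (by norm_num)]
  have h2 : R (m * n ^ 3) * ∏ p ∈ m.primeFactors ∩ n.primeFactors, p = R m * R n := by
    unfold R
    rw [h1, prod_union_inter]
  have h3 : 0 < ∏ p ∈ m.primeFactors ∩ n.primeFactors, p := prod_pos fun p hp =>
    (Nat.prime_of_mem_primeFactors (mem_inter.1 hp).1).pos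
  calc R (m * n ^ 3) ≤ R (m * n ^ 3) * ∏ p ∈ m.primeFactors ∩ n.primeFactors, p :=
        Nat.le_mul_of_pos_right _ h3
    _ = R m * R n := h2
    _ ≤ R m * n := Nat.mul_le_mul_left _ (R_le hn)

/-- coprime nonzero integers with sum zero -/
structure Tri (a b c : ℤ) : Prop where
  sum : a + b + c = 0
  ha : a ≠ 0
  hb : b ≠ 0
  hc : c ≠ 0
  cop : IsCoprime a b

/-- the height -/
noncomputable def H (a b c : ℤ) : ℝ := max (max |(a : ℝ)| |(b : ℝ)|) |(c : ℝ)|

lemma le_H1 (a b c : ℤ) : |(a : ℝ)| ≤ H a b c := (le_max_left _ _).trans (le_max_left _ _)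
lemma le_H2 (a b c : ℤ) : |(b : ℝ)| ≤ H a b c := (le_max_right _ _).trans (le_max_left _ _)
lemma le_H3 (a b c : ℤ) : |(c : ℝ)| ≤ H a b c := le_max_right _ _

lemma Tri.copbc {a b c : ℤ} (h : Tri a b c) : IsCoprime b c := by
  have h1 : c = -a + -1 * b := by linear_combination h.sum
  rw [h1]
  exact (h.cop.symm.neg_right).add_mul_right_right (-1)

lemma Tri.copac {a b c : ℤ} (h : Tri a b c) : IsCoprime a c := by
  have h1 : c = -b + -1 * a := by linear_combination h.sum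
  rw [h1]
  exact (h.cop.neg_right).add_mul_right_right (-1)

lemma one_le_abs {a : ℤ} (h : a ≠ 0) : (1 : ℝ) ≤ |(a : ℝ)| := by
  have : (1 : ℤ) ≤ |a| := Int.one_le_abs h
  exact_mod_cast this

lemma Tri.one_le_H {a b c : ℤ} (h : Tri a b c) : 1 ≤ H a b c := (one_le_abs h.ha).trans (le_H1 a b c)

lemma key (a b c : ℝ) (h : a + b + c = 0) (hac : |a| ≤ |c|) : |c| ≤ |b - c| := by
  have h1 : a ^ 2 ≤ c ^ 2 := sq_le_sq.2 hac
  apply sq_le_sq.1
  have h2 : a = -(b + c) := by linarith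
  rw [h2] at h1
  nlinarith [sq_nonneg b]

lemma height_low (a b c : ℝ) (h : a + b + c = 0) :
    (max (max |a| |b|) |c|) ^ 4 ≤ |a| * |b - c| ^ 3 + |b| * |c - a| ^ 3 + |c| * |a - b| ^ 3 := by
  have key2 : ∀ a b c : ℝ, a + b + c = 0 → |a| ≤ |c| → |b| ≤ |c| →
      |c| ^ 4 ≤ |a| * |b - c| ^ 3 + |b| * |c - a| ^ 3 := by
    intro a b c h h1 h2
    have h3 := key a b c h h1
    have h4 := key b a c (by linarith) h2
    rw [abs_sub_comm a c] at h4
    have h5 : |c| ≤ |a| + |b| := by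
      have : c = -(a + b) := by linarith
      rw [this, abs_neg]
      exact abs_add_le a b
    calc |c| ^ 4 = |c| * |c| ^ 3 := by ring
      _ ≤ (|a| + |b|) * |c| ^ 3 := by gcongr
      _ = |a| * |c| ^ 3 + |b| * |c| ^ 3 := by ring
      _ ≤ |a| * |b - c| ^ 3 + |b| * |c - a| ^ 3 := by gcongr
  rcases le_total |a| |b| with h1 | h1 <;> rcases le_total |b| |c| with h2 | h2 <;>
    rcases le_total |a| |c| with h3 | h3
  · rw [max_eq_right h1, max_eq_right h2]
    have := key2 a b c h h3 h2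
    have := mul_nonneg (abs_nonneg c) (pow_nonneg (abs_nonneg (a - b)) 3)
    linarith
  · -- |c| ≤ |a| ≤ |b| ≤ |c|
    rw [max_eq_right h1, max_eq_right h2]
    have := key2 a b c h (h1.trans h2) h2
    have := mul_nonneg (abs_nonneg c) (pow_nonneg (abs_nonneg (a - b)) 3)
    linarith
  · rw [max_eq_right h1, max_eq_left h2]
    have g := key2 c a b (by linarith) h2 h1
    rw [show c - a = -(a - c) by ring, abs_neg] at *
    have := mul_nonneg (abs_nonneg b) (pow_nonneg (abs_nonneg (a - c)) 3)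
    rw [abs_sub_comm b c] at g
    rw [abs_sub_comm b c]
    linarith
  · rw [max_eq_right h1, max_eq_left h2]
    have g := key2 c a b (by linarith) h2 h1
    have := mul_nonneg (abs_nonneg b) (pow_nonneg (abs_nonneg (c - a)) 3)
    rw [abs_sub_comm b c] at g
    rw [abs_sub_comm b c]
    linarith
  · rw [max_eq_left h1, max_eq_right h3]
    have := key2 a b c h h3 h2
    have := mul_nonneg (abs_nonneg c) (pow_nonneg (abs_nonneg (a - b)) 3)
    linarith
  · rw [max_eq_left h1, max_eq_left h3]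
    have g := key2 b c a (by linarith) h1 h3
    have := mul_nonneg (abs_nonneg a) (pow_nonneg (abs_nonneg (b - c)) 3)
    linarith
  · rw [max_eq_left h1, max_eq_right h3]
    have := key2 a b c h h3 (h1.trans h3)
    have := mul_nonneg (abs_nonneg c) (pow_nonneg (abs_nonneg (a - b)) 3)
    linarith
  · rw [max_eq_left h1, max_eq_left h3]
    have g := key2 b c a (by linarith) h1 h3
    have := mul_nonneg (abs_nonneg a) (pow_nonneg (abs_nonneg (b - c)) 3)
    linarith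

/-- **The duplication of a triple** -/
theorem dup {a b c : ℤ} (h : Tri a b c) (hH : 2 < H a b c) :
    ∃ X Y Z : ℤ, Tri (a * X ^ 3) (b * Y ^ 3) (c * Z ^ 3) ∧
      H a b c ^ 4 ≤ 81 * H (a * X ^ 3) (b * Y ^ 3) (c * Z ^ 3) ∧
      H (a * X ^ 3) (b * Y ^ 3) (c * Z ^ 3) ≤ 8 * H a b c ^ 4 ∧
      (R (a * X ^ 3 * (b * Y ^ 3) * (c * Z ^ 3)).natAbs : ℝ) ≤
        R (a * b * c).natAbs * (8 * H a b c ^ 3) := by
  -- the common factor
  obtain ⟨g, X, Y, Z, hg, hX, hY, hZ, hXY⟩ : ∃ g X Y Z : ℤ, (g = 1 ∨ g = 3) ∧ b - c = g * X ∧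
      c - a = g * Y ∧ a - b = g * Z ∧ IsCoprime X Y := by
    obtain ⟨u, v, huv⟩ := h.cop
    have hsum := h.sum
    -- `3` is a combination of the differences
    have h3 : (2 * v - u) * (b - c) + (v - 2 * u) * (c - a) = 3 := by
      have hc : c = -a - b := by linarith
      rw [hc]
      linear_combination 3 * huv
    by_cases hd : (3 : ℤ) ∣ b - c
    · obtain ⟨X, hX⟩ := hd
      have hY : (3 : ℤ) ∣ c - a := ⟨c + X, by linarith⟩
      obtain ⟨Y, hY⟩ := hY
      have hZ : (3 : ℤ) ∣ a - b := ⟨-X - Y, by linarith⟩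
      obtain ⟨Z, hZ⟩ := hZ
      refine ⟨3, X, Y, Z, Or.inr rfl, hX, hY, hZ, ⟨2 * v - u, v - 2 * u, ?_⟩⟩
      rw [hX, hY] at h3
      linarith
    · refine ⟨1, b - c, c - a, a - b, Or.inl rfl, by ring, by ring, by ring, ?_⟩
      have hp : Prime (3 : ℤ) := Int.prime_three
      have h4 : IsCoprime (3 : ℤ) (b - c) := (Prime.coprime_iff_not_dvd hp).2 hd
      rw [← h3] at h4
      have h5 : IsCoprime ((v - 2 * u) * (c - a)) (b - c) := by
        have := h4.neg_left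
        have e : (v - 2 * u) * (c - a) =
            (2 * v - u) * (b - c) + (v - 2 * u) * (c - a) + (b - c) * (-(2 * v - u)) := by ring
        rw [e]
        exact h4.add_mul_left_left _
      exact (h5.of_mul_left_right).symm
  have hg0 : g ≠ 0 := by rcases hg with h1 | h1 <;> rw [h1] <;> norm_num
  have hg1 : (1 : ℝ) ≤ |(g : ℝ)| := one_le_abs hg0
  have hg3 : |(g : ℝ)| ≤ 3 := by rcases hg with h1 | h1 <;> rw [h1] <;> norm_num
  -- real relations
  have hXr : (b : ℝ) - c = g * X := by exact_mod_cast hX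
  have hYr : (c : ℝ) - a = g * Y := by exact_mod_cast hY
  have hZr : (a : ℝ) - b = g * Z := by exact_mod_cast hZ
  have hsr : (a : ℝ) + b + c = 0 := by exact_mod_cast h.sum
  have hH0 : 0 < H a b c := by linarith
  have habs : ∀ s t : ℝ, |s| ≤ H a b c → |t| ≤ H a b c → |s - t| ≤ 2 * H a b c := by
    intro s t h1 h2
    have := abs_sub s t
    linarith
  -- nonzero
  have hne : ∀ a b c : ℤ, Tri a b c → 2 < H a b c → b - c ≠ 0 := by
    intro a b c h hH h0
    have h1 : b = c := by linarith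
    subst h1
    have h2 : a = -2 * b := by have := h.sum; linarith
    have h3 : IsUnit b := isCoprime_self.1 h.copbc
    rw [Int.isUnit_iff] at h3
    rcases h3 with h3 | h3 <;> subst h3 <;> norm_num [H, h2] at hH
  have hTb : Tri b c a := ⟨by have := h.sum; linarith, h.hb, h.hc, h.ha, h.copbc⟩
  have hTc : Tri c a b := ⟨by have := h.sum; linarith, h.hc, h.ha, h.hb, h.copac.symm⟩
  have hHb : H b c a = H a b c := by unfold H; rw [max_comm, ← max_assoc]
  have hHc : H c a b = H a b c := by unfold H; rw [max_assoc, max_comm]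
  have hX0 : X ≠ 0 := by
    intro h0
    rw [h0, mul_zero] at hX
    exact hne a b c h hH hX
  have hY0 : Y ≠ 0 := by
    intro h0
    rw [h0, mul_zero] at hY
    exact hne b c a hTb (by rw [hHb]; exact hH) hY
  have hZ0 : Z ≠ 0 := by
    intro h0
    rw [h0, mul_zero] at hZ
    exact hne c a b hTc (by rw [hHc]; exact hH) hZ
  have hsum' : a * X ^ 3 + b * Y ^ 3 + c * Z ^ 3 = 0 := by
    have h1 : g ^ 3 * (a * X ^ 3 + b * Y ^ 3 + c * Z ^ 3) = 0 := by
      have e : g ^ 3 * (a * X ^ 3 + b * Y ^ 3 + c * Z ^ 3) =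
          a * (g * X) ^ 3 + b * (g * Y) ^ 3 + c * (g * Z) ^ 3 := by ring
      rw [e, ← hX, ← hY, ← hZ]
      have hc : c = -a - b := by have := h.sum; linarith
      rw [hc]
      ring
    exact (mul_eq_zero.1 h1).resolve_left (pow_ne_zero 3 hg0)
  have hcop : IsCoprime (a * X ^ 3) (b * Y ^ 3) := by
    have h1 : IsCoprime a Y := by
      have h2 : IsCoprime a (c - a) := by
        have := h.copac.add_mul_left_right (-1)
        rwa [show c + a * -1 = c - a by ring] at this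
      rw [hY] at h2
      exact h2.of_mul_right_right
    have h3 : IsCoprime X b := by
      have h2 : IsCoprime b (b - c) := by
        have := h.copbc.neg_right.add_mul_left_right 1
        rwa [show -c + b * 1 = b - c by ring] at this
      rw [hX] at h2
      exact h2.of_mul_right_right.symm
    refine IsCoprime.mul_left (IsCoprime.mul_right h.cop h1.pow_right) ?_
    exact (IsCoprime.mul_right h3 hXY.pow_right).pow_left
  refine ⟨X, Y, Z, ⟨hsum', mul_ne_zero h.ha (pow_ne_zero 3 hX0), mul_ne_zero h.hb (pow_ne_zero 3 hY0),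
    mul_ne_zero h.hc (pow_ne_zero 3 hZ0), hcop⟩, ?_, ?_, ?_⟩
  · have h1 := height_low a b c hsr
    rw [hXr, hYr, hZr] at h1
    have h2 := le_H1 (a * X ^ 3) (b * Y ^ 3) (c * Z ^ 3)
    have h3 := le_H2 (a * X ^ 3) (b * Y ^ 3) (c * Z ^ 3)
    have h4 := le_H3 (a * X ^ 3) (b * Y ^ 3) (c * Z ^ 3)
    push_cast at h2 h3 h4
    rw [abs_mul, abs_pow] at h2 h3 h4
    simp only [abs_mul, mul_pow] at h1
    have hg27 : |(g : ℝ)| ^ 3 ≤ 27 := by
      calc |(g : ℝ)| ^ 3 ≤ 3 ^ 3 := by gcongr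
        _ = 27 := by norm_num
    have e : |(a : ℝ)| * (|(g : ℝ)| ^ 3 * |(X : ℝ)| ^ 3) + |(b : ℝ)| * (|(g : ℝ)| ^ 3 * |(Y : ℝ)| ^ 3) +
        |(c : ℝ)| * (|(g : ℝ)| ^ 3 * |(Z : ℝ)| ^ 3) = |(g : ℝ)| ^ 3 * (|(a : ℝ)| * |(X : ℝ)| ^ 3 +
          |(b : ℝ)| * |(Y : ℝ)| ^ 3 + |(c : ℝ)| * |(Z : ℝ)| ^ 3) := by ring
    rw [e] at h1
    have h5 : 0 ≤ |(a : ℝ)| * |(X : ℝ)| ^ 3 + |(b : ℝ)| * |(Y : ℝ)| ^ 3 + |(c : ℝ)| * |(Z : ℝ)| ^ 3 := by
      positivity
    calc H a b c ^ 4 ≤ |(g : ℝ)| ^ 3 * (|(a : ℝ)| * |(X : ℝ)| ^ 3 +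
          |(b : ℝ)| * |(Y : ℝ)| ^ 3 + |(c : ℝ)| * |(Z : ℝ)| ^ 3) := h1
      _ ≤ 27 * (|(a : ℝ)| * |(X : ℝ)| ^ 3 + |(b : ℝ)| * |(Y : ℝ)| ^ 3 + |(c : ℝ)| * |(Z : ℝ)| ^ 3) := by
          gcongr
      _ ≤ 81 * H (a * X ^ 3) (b * Y ^ 3) (c * Z ^ 3) := by linarith
  · have hup : ∀ s t : ℝ, ∀ W : ℤ, |s| ≤ H a b c → |t| ≤ 2 * H a b c → t = g * W →
        |s * (W : ℝ) ^ 3| ≤ 8 * H a b c ^ 4 := by
      intro s t W h1 h2 h3
      have h4 : |(W : ℝ)| ≤ |t| := by
        rw [h3, abs_mul]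
        exact le_mul_of_one_le_left (abs_nonneg _) hg1
      rw [abs_mul, abs_pow]
      calc |s| * |(W : ℝ)| ^ 3 ≤ H a b c * (2 * H a b c) ^ 3 := by
            gcongr
            exact h4.trans h2
        _ = 8 * H a b c ^ 4 := by ring
    refine max_le (max_le ?_ ?_) ?_
    · push_cast
      exact hup a _ X (le_H1 _ _ _) (habs b c (le_H2 _ _ _) (le_H3 _ _ _)) hXr
    · push_cast
      exact hup b _ Y (le_H2 _ _ _) (habs c a (le_H3 _ _ _) (le_H1 _ _ _)) hYr
    · push_cast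
      exact hup c _ Z (le_H3 _ _ _) (habs a b (le_H1 _ _ _) (le_H2 _ _ _)) hZr
  · have e : (a * X ^ 3 * (b * Y ^ 3) * (c * Z ^ 3)).natAbs =
        (a * b * c).natAbs * ((X * Y * Z).natAbs) ^ 3 := by
      rw [← Int.natAbs_pow, ← Int.natAbs_mul]
      congr 1
      ring
    have h1 := R_cube (m := (a * b * c).natAbs) (n := (X * Y * Z).natAbs)
      (Int.natAbs_ne_zero.2 (mul_ne_zero (mul_ne_zero h.ha h.hb) h.hc))
      (Int.natAbs_ne_zero.2 (mul_ne_zero (mul_ne_zero hX0 hY0) hZ0))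
    rw [e]
    have h2 : ((X * Y * Z).natAbs : ℝ) ≤ 8 * H a b c ^ 3 := by
      rw [Nat.cast_natAbs]
      push_cast
      rw [abs_mul, abs_mul]
      have hup : ∀ t : ℝ, ∀ W : ℤ, |t| ≤ 2 * H a b c → t = g * W → |(W : ℝ)| ≤ 2 * H a b c := by
        intro t W h2 h3
        refine le_trans ?_ h2
        rw [h3, abs_mul]
        exact le_mul_of_one_le_left (abs_nonneg _) hg1
      have g1 := hup _ X (habs b c (le_H2 _ _ _) (le_H3 _ _ _)) hXr
      have g2 := hup _ Y (habs c a (le_H3 _ _ _) (le_H1 _ _ _)) hYr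
      have g3 := hup _ Z (habs a b (le_H1 _ _ _) (le_H2 _ _ _)) hZr
      calc |(X : ℝ)| * |(Y : ℝ)| * |(Z : ℝ)| ≤ (2 * H a b c) * (2 * H a b c) * (2 * H a b c) := by gcongr
        _ = 8 * H a b c ^ 3 := by ring
    calc (R ((a * b * c).natAbs * (X * Y * Z).natAbs ^ 3) : ℝ) ≤
          ((R (a * b * c).natAbs * (X * Y * Z).natAbs : ℕ) : ℝ) := by exact_mod_cast h1
      _ = (R (a * b * c).natAbs : ℝ) * ((X * Y * Z).natAbs : ℝ) := by push_cast; ring
      _ ≤ _ := by gcongr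

end Q241.AC
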