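import Pool.Agent.Q241.AC.A

/-! # The chain of reductions -/

set_option autoImplicit false

open Finset

namespace Q241.AC

/-- the constants -/
noncomputable def K : ℕ → ℝ
  | 0 => 1
  | r + 1 => 81 * K r ^ 4

lemma K_pos (r : ℕ) : 0 < K r := by
  induction r with
  | zero => exact one_pos
  | succ r ih =>
    show 0 < 81 * K r ^ 4
    positivity

/-- cubes up to small factors -/
def S (r : ℕ) (a b c : ℤ) : Prop := ∃ u v w X Y Z : ℤ, a = u * X ^ 3 ∧ b = v * Y ^ 3 ∧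
  c = w * Z ^ 3 ∧ H u v w ^ (4 ^ r) ≤ K r * H a b c

lemma H_nonneg (a b c : ℤ) : 0 ≤ H a b c := (abs_nonneg _).trans (le_H1 a b c)

lemma H_rot (a b c : ℤ) : H b c a = H a b c := by unfold H; rw [max_comm, ← max_assoc]

lemma S_rot {r : ℕ} {a b c : ℤ} (h : S r a b c) : S r b c a := by
  obtain ⟨u, v, w, X, Y, Z, h1, h2, h3, h4⟩ := h
  exact ⟨v, w, u, Y, Z, X, h2, h3, h1, by rw [H_rot u v w, H_rot a b c]; exact h4⟩

lemma Tri.rot {a b c : ℤ} (h : Tri a b c) : Tri b c a :=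
  ⟨by have := h.sum; linarith, h.hb, h.hc, h.ha, h.copbc⟩

lemma S_zero (a b c : ℤ) : S 0 a b c :=
  ⟨a, b, c, 1, 1, 1, by ring, by ring, by ring, by simp [K]⟩

lemma S_succ {r : ℕ} {a b c X Y Z : ℤ} (h : S r a b c)
    (hH : H a b c ^ 4 ≤ 81 * H (a * X ^ 3) (b * Y ^ 3) (c * Z ^ 3)) :
    S (r + 1) (a * X ^ 3) (b * Y ^ 3) (c * Z ^ 3) := by
  obtain ⟨u, v, w, X', Y', Z', h1, h2, h3, h4⟩ := h
  refine ⟨u, v, w, X' * X, Y' * Y, Z' * Z, by rw [h1]; ring, by rw [h2]; ring, by rw [h3]; ring, ?_⟩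
  have hK := K_pos r
  have h0 := H_nonneg u v w
  calc H u v w ^ (4 ^ (r + 1)) = (H u v w ^ (4 ^ r)) ^ 4 := by rw [← pow_mul, pow_succ]
    _ ≤ (K r * H a b c) ^ 4 := by gcongr
    _ = K r ^ 4 * H a b c ^ 4 := by ring
    _ ≤ K r ^ 4 * (81 * H (a * X ^ 3) (b * Y ^ 3) (c * Z ^ 3)) := by gcongr
    _ = K (r + 1) * H (a * X ^ 3) (b * Y ^ 3) (c * Z ^ 3) := by
      show _ = 81 * K r ^ 4 * _
      ring

/-- the height of a triple -/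
noncomputable def Ht (t : ℤ × ℤ × ℤ) : ℝ := H t.1 t.2.1 t.2.2

/-- coprime nonzero integers with sum zero -/
def TT (t : ℤ × ℤ × ℤ) : Prop := Tri t.1 t.2.1 t.2.2

/-- the radical of the product -/
def Rt (t : ℤ × ℤ × ℤ) : ℕ := R (t.1 * t.2.1 * t.2.2).natAbs

lemma nx_ex (t : ℤ × ℤ × ℤ) : ∃ t' : ℤ × ℤ × ℤ, TT t → 2 < Ht t →
    TT t' ∧ Ht t ^ 4 ≤ 81 * Ht t' ∧ Ht t' ≤ 8 * Ht t ^ 4 ∧ (Rt t' : ℝ) ≤ Rt t * (8 * Ht t ^ 3) ∧
      ∀ r : ℕ, S r t.1 t.2.1 t.2.2 → S (r + 1) t'.1 t'.2.1 t'.2.2 := by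
  by_cases h : TT t ∧ 2 < Ht t
  · obtain ⟨X, Y, Z, h1, h2, h3, h4⟩ := dup h.1 h.2
    exact ⟨(t.1 * X ^ 3, t.2.1 * Y ^ 3, t.2.2 * Z ^ 3), fun _ _ => ⟨h1, h2, h3, h4,
      fun r hS => S_succ hS h2⟩⟩
  · exact ⟨t, fun h1 h2 => absurd ⟨h1, h2⟩ h⟩

/-- the next triple -/
noncomputable def nx (t : ℤ × ℤ × ℤ) : ℤ × ℤ × ℤ := (nx_ex t).choose

lemma nx_spec {t : ℤ × ℤ × ℤ} (h1 : TT t) (h2 : 2 < Ht t) :
    TT (nx t) ∧ Ht t ^ 4 ≤ 81 * Ht (nx t) ∧ Ht (nx t) ≤ 8 * Ht t ^ 4 ∧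
      (Rt (nx t) : ℝ) ≤ Rt t * (8 * Ht t ^ 3) ∧
      ∀ r : ℕ, S r t.1 t.2.1 t.2.2 → S (r + 1) (nx t).1 (nx t).2.1 (nx t).2.2 :=
  (nx_ex t).choose_spec h1 h2

/-- the triples obtained by `r` duplications -/
def P : ℕ → ℤ × ℤ × ℤ → Prop
  | 0, t => TT t
  | r + 1, t => ∃ s, P r s ∧ 2 < Ht s ∧ t = nx s

lemma P_TT (r : ℕ) : ∀ t, P r t → TT t ∧ S r t.1 t.2.1 t.2.2 := by
  induction r with
  | zero => exact fun t ht => ⟨ht, S_zero _ _ _⟩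
  | succ r ih =>
    rintro t ⟨s, hs, h2, rfl⟩
    obtain ⟨h3, h4⟩ := ih s hs
    have h5 := nx_spec h3 h2
    exact ⟨h5.1, h5.2.2.2.2 r h4⟩

lemma P_src (r : ℕ) : ∀ t, P r t → ∃ s, TT s ∧ t = nx^[r] s ∧ Ht s ^ (4 ^ r) ≤ K r * Ht t := by
  induction r with
  | zero => exact fun t ht => ⟨t, ht, rfl, by simp [K]⟩
  | succ r ih =>
    rintro t ⟨s, hs, h2, rfl⟩
    obtain ⟨s', h3, h4, h5⟩ := ih s hs
    refine ⟨s', h3, by rw [Function.iterate_succ_apply', ← h4], ?_⟩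
    have h6 := nx_spec (P_TT r s hs).1 h2
    have hK := K_pos r
    have h0 : 0 ≤ Ht s' := H_nonneg _ _ _
    calc Ht s' ^ (4 ^ (r + 1)) = (Ht s' ^ (4 ^ r)) ^ 4 := by rw [← pow_mul, pow_succ]
      _ ≤ (K r * Ht s) ^ 4 := by gcongr
      _ = K r ^ 4 * Ht s ^ 4 := by ring
      _ ≤ K r ^ 4 * (81 * Ht (nx s)) := by
        gcongr
        exact h6.2.1
      _ = K (r + 1) * Ht (nx s) := by
        show _ = 81 * K r ^ 4 * _
        ring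

/-- the inequality for the triples with the property `Q` -/
def ABCfor (Q : ℤ × ℤ × ℤ → Prop) : Prop := ∀ ε : ℝ, 0 < ε → ∃ κ : ℝ, ∀ t : ℤ × ℤ × ℤ,
  Q t → Ht t ≤ κ * (Rt t : ℝ) ^ (1 + ε)

theorem step (r : ℕ) (h : ABCfor (P (r + 1))) : ABCfor (P r) := by
  intro ε hε
  obtain ⟨δ, hδ⟩ : ∃ δ : ℝ, δ = ε / (4 + 3 * ε) := ⟨_, rfl⟩
  have hd : 0 < 4 + 3 * ε := by positivity
  have hδ0 : 0 < δ := by rw [hδ]; positivity
  have hδ1 : 0 < 1 - 3 * δ := by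
    rw [hδ, sub_pos, mul_div_assoc', div_lt_one hd]
    linarith
  have hδ2 : (1 + δ) = (1 + ε) * (1 - 3 * δ) := by
    rw [hδ]
    field_simp
    ring
  obtain ⟨κ, hκ⟩ := h δ hδ0
  obtain ⟨M, hM⟩ : ∃ M : ℝ, M = 81 * max κ 1 * 8 ^ (1 + δ) := ⟨_, rfl⟩
  have hκ1 : (1 : ℝ) ≤ max κ 1 := le_max_right _ _
  have hM0 : 0 < M := by rw [hM]; positivity
  refine ⟨M ^ (1 / (1 - 3 * δ)) + 2, fun t hP => ?_⟩
  have hT := (P_TT r t hP).1
  have hR1 : (1 : ℝ) ≤ Rt t := R_one_le _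
  obtain ⟨ρ, hρ⟩ : ∃ ρ : ℝ, ρ = Rt t := ⟨_, rfl⟩
  rw [← hρ] at hR1 ⊢
  have hρ0 : 0 < ρ := by linarith
  have hρ1 : 1 ≤ ρ ^ (1 + ε) := Real.one_le_rpow hR1 (by linarith)
  have hMp : 0 ≤ M ^ (1 / (1 - 3 * δ)) := Real.rpow_nonneg hM0.le _
  rcases le_or_gt (Ht t) 2 with hH | hH
  · calc Ht t ≤ 2 := hH
      _ ≤ (M ^ (1 / (1 - 3 * δ)) + 2) * 1 := by linarith
      _ ≤ _ := by gcongr
  · obtain ⟨h1, h2, h3, h4, -⟩ := nx_spec hT hH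
    have h5 := hκ _ (show P (r + 1) (nx t) from ⟨t, hP, hH, rfl⟩)
    rw [← hρ] at h4
    obtain ⟨η, hη⟩ : ∃ η : ℝ, η = Ht t := ⟨_, rfl⟩
    rw [← hη] at h2 h4 hH ⊢
    have hη0 : 0 < η := by linarith
    have h6 : (η : ℝ) ^ 4 ≤ M * (η ^ (3 * (1 + δ)) * ρ ^ (1 + δ)) := by
      calc η ^ 4 ≤ 81 * Ht (nx t) := h2
        _ ≤ 81 * (κ * (Rt (nx t) : ℝ) ^ (1 + δ)) := by gcongr
        _ ≤ 81 * (max κ 1 * (ρ * (8 * η ^ 3)) ^ (1 + δ)) := by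
            gcongr
            exact le_max_left _ _
        _ = M * (η ^ (3 * (1 + δ)) * ρ ^ (1 + δ)) := by
            rw [hM, Real.mul_rpow hρ0.le (by positivity), Real.mul_rpow (by norm_num) (by positivity)]
            have e : (η ^ 3) ^ (1 + δ) = η ^ (3 * (1 + δ)) := by
              rw [← Real.rpow_natCast, ← Real.rpow_mul hη0.le]
              norm_num
            rw [e]
            ring
    have h7 : η ^ (1 - 3 * δ) ≤ M * ρ ^ (1 + δ) := by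
      have e1 : η ^ 4 = η ^ (1 - 3 * δ) * η ^ (3 * (1 + δ)) := by
        rw [← Real.rpow_add hη0, ← Real.rpow_natCast]
        congr 1
        push_cast
        ring
      rw [e1, show M * (η ^ (3 * (1 + δ)) * ρ ^ (1 + δ)) = (M * ρ ^ (1 + δ)) * η ^ (3 * (1 + δ)) by ring] at h6
      exact le_of_mul_le_mul_right h6 (Real.rpow_pos_of_pos hη0 _)
    have h8 : η ≤ M ^ (1 / (1 - 3 * δ)) * ρ ^ (1 + ε) := by
      have e1 : η = (η ^ (1 - 3 * δ)) ^ (1 / (1 - 3 * δ)) := by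
        rw [← Real.rpow_mul hη0.le, mul_one_div_cancel hδ1.ne', Real.rpow_one]
      have e2 : (M * ρ ^ (1 + δ)) ^ (1 / (1 - 3 * δ)) = M ^ (1 / (1 - 3 * δ)) * ρ ^ (1 + ε) := by
        rw [Real.mul_rpow hM0.le (Real.rpow_nonneg hρ0.le _), ← Real.rpow_mul hρ0.le]
        congr 2
        rw [hδ2]
        field_simp
      rw [← e2]
      calc η = (η ^ (1 - 3 * δ)) ^ (1 / (1 - 3 * δ)) := e1
        _ ≤ _ := Real.rpow_le_rpow (Real.rpow_nonneg hη0.le _) h7 (by positivity)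
    calc η ≤ M ^ (1 / (1 - 3 * δ)) * ρ ^ (1 + ε) := h8
      _ ≤ (M ^ (1 / (1 - 3 * δ)) + 2) * ρ ^ (1 + ε) := by
        gcongr
        linarith

theorem chain (r : ℕ) (h : ABCfor (P r)) : ABCfor (P 0) := by
  induction r with
  | zero => exact h
  | succ r ih => exact ih (step r h)

/-- all three members are cubes up to small factors -/
def AlmostCubes (η : ℝ) (a b c : ℕ) : Prop := ∃ u v w x y z : ℕ, a = u * x ^ 3 ∧ b = v * y ^ 3 ∧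
  c = w * z ^ 3 ∧ ((u * v * w : ℕ) : ℝ) ≤ (c : ℝ) ^ η

/-- the inequality for the members of a set -/
def ABCon (T : Set (ℕ × ℕ × ℕ)) : Prop := ∀ ε : ℝ, 0 < ε → ∃ κ : ℝ, ∀ a b c : ℕ, (a, b, c) ∈ T →
  (c : ℝ) ≤ κ * (R (a * b * c) : ℝ) ^ (1 + ε)

lemma H_eq {a b c : ℤ} (h : a.natAbs + b.natAbs = c.natAbs) : H a b c = (c.natAbs : ℝ) := by
  have h1 : |(a : ℝ)| = (a.natAbs : ℝ) := by rw [Nat.cast_natAbs]; push_cast; rfl
  have h2 : |(b : ℝ)| = (b.natAbs : ℝ) := by rw [Nat.cast_natAbs]; push_cast; rfl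
  have h3 : |(c : ℝ)| = (c.natAbs : ℝ) := by rw [Nat.cast_natAbs]; push_cast; rfl
  unfold H
  rw [h1, h2, h3]
  refine max_eq_right (max_le ?_ ?_)
  · exact_mod_cast (by omega : a.natAbs ≤ c.natAbs)
  · exact_mod_cast (by omega : b.natAbs ≤ c.natAbs)

lemma natAbs_le_H (a b c : ℤ) : (a.natAbs : ℝ) ≤ H a b c := by
  have := le_H1 a b c
  rw [Nat.cast_natAbs]
  push_cast
  exact this

/-- integer triples with small cofactors are almost cubes -/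
lemma almost {η : ℝ} {r : ℕ} (hr : 3 / (4 : ℝ) ^ r < η) : ∃ H0 : ℝ, 0 < H0 ∧ ∀ a b c : ℤ,
    Tri a b c → S r a b c → a.natAbs + b.natAbs = c.natAbs → H0 ≤ H a b c →
      AlmostCubes η a.natAbs b.natAbs c.natAbs := by
  obtain ⟨θ, hθ⟩ : ∃ θ : ℝ, θ = 3 / (4 : ℝ) ^ r := ⟨_, rfl⟩
  rw [← hθ] at hr
  have hθ0 : 0 < θ := by rw [hθ]; positivity
  have hK := K_pos r
  have hKθ : 0 < K r ^ θ := Real.rpow_pos_of_pos hK _
  refine ⟨(K r ^ θ) ^ (1 / (η - θ)), Real.rpow_pos_of_pos hKθ _, fun a b c hT hS hab hH => ?_⟩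
  obtain ⟨u, v, w, X, Y, Z, h1, h2, h3, h4⟩ := hS
  refine ⟨u.natAbs, v.natAbs, w.natAbs, X.natAbs, Y.natAbs, Z.natAbs, ?_, ?_, ?_, ?_⟩
  · rw [h1, Int.natAbs_mul, Int.natAbs_pow]
  · rw [h2, Int.natAbs_mul, Int.natAbs_pow]
  · rw [h3, Int.natAbs_mul, Int.natAbs_pow]
  · rw [← H_eq hab]
    have hH1 := hT.one_le_H
    have hH0 : 0 < H a b c := by linarith
    have g0 := H_nonneg u v w
    have g1 : ((u.natAbs * v.natAbs * w.natAbs : ℕ) : ℝ) ≤ H u v w ^ 3 := by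
      push_cast
      have k1 := natAbs_le_H u v w
      have k2 : (v.natAbs : ℝ) ≤ H u v w := by rw [← H_rot]; exact natAbs_le_H v w u
      have k3 : (w.natAbs : ℝ) ≤ H u v w := by rw [← H_rot, ← H_rot]; exact natAbs_le_H w u v
      simp only [Nat.cast_natAbs, Int.cast_abs] at k1 k2 k3 ⊢
      calc |(u : ℝ)| * |(v : ℝ)| * |(w : ℝ)| ≤ H u v w * H u v w * H u v w := by gcongr
        _ = H u v w ^ 3 := by ring
    have g2 : H u v w ^ 3 ≤ (K r * H a b c) ^ θ := by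
      have e1 : H u v w ^ 3 = (H u v w ^ (4 ^ r)) ^ θ := by
        rw [← Real.rpow_natCast _ (4 ^ r), ← Real.rpow_mul g0, ← Real.rpow_natCast _ 3]
        congr 1
        rw [hθ]
        push_cast
        field_simp
      rw [e1]
      exact Real.rpow_le_rpow (by positivity) h4 hθ0.le
    have g3 : K r ^ θ ≤ H a b c ^ (η - θ) := by
      have hpos : 0 < η - θ := by linarith
      have := Real.rpow_le_rpow (Real.rpow_nonneg hKθ.le _) hH hpos.le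
      rwa [← Real.rpow_mul hKθ.le, one_div_mul_cancel hpos.ne', Real.rpow_one] at this
    calc ((u.natAbs * v.natAbs * w.natAbs : ℕ) : ℝ) ≤ H u v w ^ 3 := g1
      _ ≤ (K r * H a b c) ^ θ := g2
      _ = K r ^ θ * H a b c ^ θ := Real.mul_rpow hK.le hH0.le
      _ ≤ H a b c ^ (η - θ) * H a b c ^ θ := by gcongr
      _ = H a b c ^ η := by rw [← Real.rpow_add hH0]; congr 1; ring

lemma cases_sum {a b c : ℤ} (h : a + b + c = 0) : a.natAbs + b.natAbs = c.natAbs ∨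
    b.natAbs + c.natAbs = a.natAbs ∨ c.natAbs + a.natAbs = b.natAbs := by omega

/-- the inequality for all triples -/
def ABC : Prop := ∀ ε : ℝ, 0 < ε → ∃ κ : ℝ, ∀ a b c : ℕ, 0 < a → 0 < b →
  Nat.Coprime a b → a + b = c → (c : ℝ) ≤ κ * (R (a * b * c) : ℝ) ^ (1 + ε)

/-- the sparse set -/
def Sp (r : ℕ) (H0 : ℝ) : Set (ℕ × ℕ × ℕ) := {p | p.1 + p.2.1 = p.2.2 ∧ H0 ≤ (p.2.2 : ℝ) ∧
  ∃ a b c : ℤ, (P r (a, b, c) ∨ P r (c, a, b) ∨ P r (b, c, a)) ∧ p.1 = a.natAbs ∧ p.2.1 = b.natAbs ∧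
    p.2.2 = c.natAbs}

lemma Sp_tri {r : ℕ} {H0 : ℝ} {a b c : ℕ} (h : (a, b, c) ∈ Sp r H0) : ∃ x y z : ℤ, Tri x y z ∧
    S r x y z ∧ a = x.natAbs ∧ b = y.natAbs ∧ c = z.natAbs ∧ a + b = c ∧ H0 ≤ (c : ℝ) := by
  obtain ⟨h1, h0, x, y, z, h2, h3, h4, h5⟩ := h
  refine ⟨x, y, z, ?_⟩
  rcases h2 with h2 | h2 | h2
  · obtain ⟨g1, g2⟩ := P_TT r _ h2
    exact ⟨g1, g2, h3, h4, h5, h1, h0⟩
  · obtain ⟨g1, g2⟩ := P_TT r _ h2
    exact ⟨g1.rot, S_rot g2, h3, h4, h5, h1, h0⟩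
  · obtain ⟨g1, g2⟩ := P_TT r _ h2
    exact ⟨g1.rot.rot, S_rot (S_rot g2), h3, h4, h5, h1, h0⟩

theorem Sp_to_P {r : ℕ} {H0 : ℝ} (hH0 : 0 < H0) (h : ABCon (Sp r H0)) : ABCfor (P r) := by
  intro ε hε
  obtain ⟨κ, hκ⟩ := h ε hε
  have core : ∀ a b c : ℤ, Tri a b c → (P r (a, b, c) ∨ P r (c, a, b) ∨ P r (b, c, a)) →
      a.natAbs + b.natAbs = c.natAbs →
      H a b c ≤ (max κ H0) * (R (a * b * c).natAbs : ℝ) ^ (1 + ε) := by
    intro a b c hT hP hab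
    have hR1 := R_one_le (a * b * c).natAbs
    have hR2 : 1 ≤ (R (a * b * c).natAbs : ℝ) ^ (1 + ε) := Real.one_le_rpow hR1 (by linarith)
    rw [H_eq hab]
    rcases le_or_gt H0 (c.natAbs : ℝ) with h1 | h1
    · have h2 := hκ a.natAbs b.natAbs c.natAbs ⟨hab, h1, a, b, c, hP, rfl, rfl, rfl⟩
      rw [← Int.natAbs_mul, ← Int.natAbs_mul] at h2
      refine h2.trans ?_
      gcongr
      exact le_max_left _ _
    · calc (c.natAbs : ℝ) ≤ H0 * 1 := by linarith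
        _ ≤ (max κ H0) * (R (a * b * c).natAbs : ℝ) ^ (1 + ε) := by
          gcongr
          exact le_max_right _ _
  refine ⟨max κ H0, fun t hP => ?_⟩
  obtain ⟨a, b, c⟩ := t
  have hT : Tri a b c := (P_TT r _ hP).1
  show H a b c ≤ (max κ H0) * (R (a * b * c).natAbs : ℝ) ^ (1 + ε)
  rcases cases_sum hT.sum with h1 | h1 | h1
  · exact core a b c hT (Or.inl hP) h1
  · have := core b c a hT.rot (Or.inr (Or.inl hP)) h1
    rwa [H_rot, show b * c * a = a * b * c by ring] at this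
  · have := core c a b hT.rot.rot (Or.inr (Or.inr hP)) h1
    rwa [H_rot, H_rot, show c * a * b = a * b * c by ring] at this

lemma ABC_of_P (h1 : ABCfor (P 0)) : ABC := by
  intro ε hε
  obtain ⟨κ, hκ⟩ := h1 ε hε
  refine ⟨κ, fun a b c ha hb hab hc => ?_⟩
  have hT : Tri (a : ℤ) (b : ℤ) (-(c : ℤ)) := by
    refine ⟨by rw [← hc]; push_cast; ring, by exact_mod_cast ha.ne', by exact_mod_cast hb.ne', ?_,
      Nat.isCoprime_iff_coprime.2 hab⟩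
    rw [neg_ne_zero]
    exact_mod_cast (by omega : c ≠ 0)
  have h2 := hκ ((a : ℤ), (b : ℤ), (-(c : ℤ))) hT
  have e1 : ((a : ℤ) * b * (-(c : ℤ))).natAbs = a * b * c := by
    rw [mul_neg, Int.natAbs_neg]
    exact_mod_cast Int.natAbs_natCast (a * b * c)
  have h4 : Rt ((a : ℤ), (b : ℤ), (-(c : ℤ))) = R (a * b * c) := by
    show R ((a : ℤ) * b * (-(c : ℤ))).natAbs = _
    rw [e1]
  rw [h4] at h2
  refine le_trans ?_ h2
  have h3 := le_H3 (a : ℤ) (b : ℤ) (-(c : ℤ))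
  push_cast at h3
  rw [abs_neg, abs_of_nonneg (Nat.cast_nonneg c)] at h3
  exact h3

/-- few triples up to `X` -/
lemma Sp_count {η : ℝ} {r : ℕ} (hr : 3 / (4 : ℝ) ^ r < η) (H0 : ℝ) : ∃ C : ℝ, ∀ X : ℝ, 1 ≤ X →
    ∀ F : Finset (ℕ × ℕ × ℕ), (∀ p ∈ F, p ∈ Sp r H0 ∧ (p.2.2 : ℝ) ≤ X) → (F.card : ℝ) ≤ C * X ^ η := by
  classical
  have hK := K_pos r
  obtain ⟨ν, hν⟩ : ∃ ν : ℝ, ν = 1 / (4 : ℝ) ^ r := ⟨_, rfl⟩
  have hν0 : 0 < ν := by rw [hν]; positivity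
  have hνη : 2 * ν ≤ η := by
    have : 3 * ν < η := by rw [hν]; linarith [hr, (show 3 * (1 / (4 : ℝ) ^ r) = 3 / (4 : ℝ) ^ r by ring)]
    linarith
  have hKν : 0 < K r ^ ν := Real.rpow_pos_of_pos hK _
  refine ⟨3 * (2 * K r ^ ν + 3) ^ 2, fun X hX F hF => ?_⟩
  have hX0 : 0 < X := by linarith
  have hXν : 1 ≤ X ^ ν := Real.one_le_rpow hX hν0.le
  obtain ⟨B, hB⟩ : ∃ B : ℕ, B = ⌈(K r * X) ^ ν⌉₊ := ⟨_, rfl⟩
  have hBX : (B : ℝ) ≤ K r ^ ν * X ^ ν + 1 := by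
    rw [hB, ← Real.mul_rpow hK.le hX0.le]
    exact (Nat.ceil_lt_add_one (Real.rpow_nonneg (by positivity) _)).le
  obtain ⟨box, hbox⟩ : ∃ box : Finset (ℤ × ℤ), box = Icc (-(B : ℤ)) B ×ˢ Icc (-(B : ℤ)) B := ⟨_, rfl⟩
  have hboxc : box.card = (2 * B + 1) ^ 2 := by
    rw [hbox, card_product, Int.card_Icc]
    have : ((B : ℤ) + 1 - -(B : ℤ)).toNat = 2 * B + 1 := by omega
    rw [this]
    ring
  obtain ⟨ψ, hψ⟩ : ∃ ψ : ℤ × ℤ × ℤ → ℕ × ℕ × ℕ, ψ = fun t => (t.1.natAbs, t.2.1.natAbs, t.2.2.natAbs) :=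
    ⟨_, rfl⟩
  obtain ⟨φ, hφ⟩ : ∃ φ : ℤ × ℤ → ℤ × ℤ × ℤ, φ = fun q => nx^[r] (q.1, q.2, -q.1 - q.2) := ⟨_, rfl⟩
  -- the source lies in the box
  have hsrc : ∀ t, P r t → Ht t ≤ X → ∃ q ∈ box, φ q = t := by
    intro t ht htX
    obtain ⟨s, h1, h2, h3⟩ := P_src r t ht
    have h4 : Ht s ≤ (K r * X) ^ ν := by
      have h0 : 0 ≤ Ht s := H_nonneg _ _ _
      have h5 : Ht s = (Ht s ^ (4 ^ r)) ^ ν := by
        rw [← Real.rpow_natCast _ (4 ^ r), ← Real.rpow_mul h0, hν]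
        push_cast
        rw [mul_one_div_cancel (by positivity), Real.rpow_one]
      rw [h5]
      refine Real.rpow_le_rpow (by positivity) (h3.trans ?_) hν0.le
      gcongr
    have h5 : Ht s ≤ (B : ℝ) := h4.trans (by rw [hB]; exact Nat.le_ceil _)
    refine ⟨(s.1, s.2.1), ?_, ?_⟩
    · have g1 := (le_H1 s.1 s.2.1 s.2.2).trans h5
      have g2 := (le_H2 s.1 s.2.1 s.2.2).trans h5
      have g3 : |s.1| ≤ (B : ℤ) := by exact_mod_cast g1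
      have g4 : |s.2.1| ≤ (B : ℤ) := by exact_mod_cast g2
      rw [hbox, mem_product, mem_Icc, mem_Icc]
      exact ⟨abs_le.1 g3, abs_le.1 g4⟩
    · rw [hφ, h2]
      simp only
      congr 1
      have h6 : s.2.2 = -s.1 - s.2.1 := by have := h1.sum; linarith
      rw [← h6]
  have hsub : F ⊆ box.image (fun q => ψ (φ q)) ∪ (box.image (fun q => ψ ((φ q).2.1, (φ q).2.2, (φ q).1)) ∪
      box.image (fun q => ψ ((φ q).2.2, (φ q).1, (φ q).2.1))) := by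
    rintro ⟨p1, p2, p3⟩ hp
    obtain ⟨⟨h1, -, a, b, c, h2, h3, h4, h5⟩, h6⟩ := hF _ hp
    simp only at h1 h3 h4 h5 h6
    have hHc : H a b c ≤ X := by
      rw [H_eq (by omega : a.natAbs + b.natAbs = c.natAbs), ← h5]
      exact h6
    rw [mem_union, mem_union, mem_image, mem_image, mem_image]
    rcases h2 with h2 | h2 | h2
    · obtain ⟨q, hq, hq2⟩ := hsrc _ h2 hHc
      refine Or.inl ⟨q, hq, ?_⟩
      rw [hq2, hψ, h3, h4, h5]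
    · obtain ⟨q, hq, hq2⟩ := hsrc _ h2 (by show H c a b ≤ X; rw [← H_rot]; exact hHc)
      refine Or.inr (Or.inl ⟨q, hq, ?_⟩)
      rw [hq2, hψ, h3, h4, h5]
    · obtain ⟨q, hq, hq2⟩ := hsrc _ h2 (by show H b c a ≤ X; rw [H_rot]; exact hHc)
      refine Or.inr (Or.inr ⟨q, hq, ?_⟩)
      rw [hq2, hψ, h3, h4, h5]
  have hcard : F.card ≤ 3 * (2 * B + 1) ^ 2 := by
    refine (card_le_card hsub).trans ((card_union_le _ _).trans ?_)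
    have h1 := card_union_le (box.image (fun q => ψ ((φ q).2.1, (φ q).2.2, (φ q).1)))
      (box.image (fun q => ψ ((φ q).2.2, (φ q).1, (φ q).2.1)))
    have h2 := card_image_le (s := box) (f := fun q => ψ (φ q))
    have h3 := card_image_le (s := box) (f := fun q => ψ ((φ q).2.1, (φ q).2.2, (φ q).1))
    have h4 := card_image_le (s := box) (f := fun q => ψ ((φ q).2.2, (φ q).1, (φ q).2.1))
    rw [hboxc] at h2 h3 h4
    omega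
  have hcard' : (F.card : ℝ) ≤ 3 * (2 * (B : ℝ) + 1) ^ 2 := by exact_mod_cast hcard
  refine hcard'.trans ?_
  have h7 : 2 * (B : ℝ) + 1 ≤ (2 * K r ^ ν + 3) * X ^ ν := by nlinarith
  calc 3 * (2 * (B : ℝ) + 1) ^ 2 ≤ 3 * ((2 * K r ^ ν + 3) * X ^ ν) ^ 2 := by gcongr
    _ = 3 * (2 * K r ^ ν + 3) ^ 2 * X ^ (2 * ν) := by
        rw [two_mul ν, Real.rpow_add hX0]
        ring
    _ ≤ 3 * (2 * K r ^ ν + 3) ^ 2 * X ^ η := by
        have := Real.rpow_le_rpow_of_exponent_le hX hνη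
        gcongr

/-- **The reduction** -/
theorem reduction {η : ℝ} (hη : 0 < η) : ∃ T : Set (ℕ × ℕ × ℕ),
    (∀ a b c : ℕ, (a, b, c) ∈ T → 0 < a ∧ 0 < b ∧ Nat.Coprime a b ∧ a + b = c ∧
      AlmostCubes η a b c) ∧
    (∃ C : ℝ, ∀ X : ℝ, 1 ≤ X → ∀ F : Finset (ℕ × ℕ × ℕ), (∀ p ∈ F, p ∈ T ∧ (p.2.2 : ℝ) ≤ X) →
      (F.card : ℝ) ≤ C * X ^ η) ∧
    (ABCon T → ABC) := by
  obtain ⟨r, hr⟩ : ∃ r : ℕ, 3 / (4 : ℝ) ^ r < η := by
    obtain ⟨r, hr⟩ := pow_unbounded_of_one_lt (3 / η) (by norm_num : (1 : ℝ) < 4)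
    refine ⟨r, ?_⟩
    rw [div_lt_iff₀ hη] at hr
    rw [div_lt_iff₀ (by positivity)]
    linarith
  obtain ⟨H0, hH0, hal⟩ := almost hr
  refine ⟨Sp r H0, ?_, Sp_count hr H0, fun h => ABC_of_P (chain r (Sp_to_P hH0 h))⟩
  intro a b c h
  obtain ⟨x, y, z, hT, hS, h1, h2, h3, h4, h5⟩ := Sp_tri h
  subst h1; subst h2; subst h3
  exact ⟨Int.natAbs_pos.2 hT.ha, Int.natAbs_pos.2 hT.hb, Int.isCoprime_iff_gcd_eq_one.1 hT.cop, h4,
    hal x y z hT hS h4 (by rw [H_eq h4]; exact h5)⟩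

end Q241.AC
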