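import Pool.Agent.Q241.AC.B
import Pool.Agent.W16.GT.Main

/-! # Large members of the family -/

set_option autoImplicit false

open Finset Filter

namespace Q241.AC

theorem up (r : ℕ) (t : ℤ × ℤ × ℤ) (hT : TT t) (hH : 81 ≤ Ht t) : ∃ t', P r t' ∧ Ht t ≤ Ht t' ∧
    2 * Ht t' ≤ (2 * Ht t) ^ (4 ^ r) ∧ Ht t * Rt t' ≤ 648 ^ r * (Ht t' * Rt t) := by
  induction r with
  | zero => exact ⟨t, hT, le_rfl, by simp, by simp⟩
  | succ r ih =>
    obtain ⟨s, h1, h2, h3, h4⟩ := ih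
    have hs : 81 ≤ Ht s := hH.trans h2
    have h5 := nx_spec (P_TT r s h1).1 (by linarith)
    refine ⟨nx s, ⟨s, h1, by linarith, rfl⟩, ?_, ?_, ?_⟩
    · have g1 := h5.2.1
      have g2 : 81 ^ 3 * Ht s ≤ Ht s ^ 4 := by
        calc 81 ^ 3 * Ht s ≤ Ht s ^ 3 * Ht s := by gcongr
          _ = Ht s ^ 4 := by ring
      nlinarith
    · have g1 := h5.2.2.1
      have g0 : 0 ≤ Ht s := by linarith
      calc 2 * Ht (nx s) ≤ 2 * (8 * Ht s ^ 4) := by gcongr
        _ = (2 * Ht s) ^ 4 := by ring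
        _ ≤ ((2 * Ht t) ^ (4 ^ r)) ^ 4 := by gcongr
        _ = (2 * Ht t) ^ (4 ^ (r + 1)) := by rw [← pow_mul, pow_succ 4 r]
    · have g1 := h5.2.2.2.1
      have g2 := h5.2.1
      have g0 : 0 ≤ Ht s := by linarith
      have gt : 0 ≤ Ht t := by linarith
      have gR : (0 : ℝ) ≤ Rt t := Nat.cast_nonneg _
      calc Ht t * Rt (nx s) ≤ Ht t * (Rt s * (8 * Ht s ^ 3)) := by gcongr
        _ = (Ht t * Rt s) * (8 * Ht s ^ 3) := by ring
        _ ≤ (648 ^ r * (Ht s * Rt t)) * (8 * Ht s ^ 3) := by gcongr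
        _ = 648 ^ r * 8 * Rt t * Ht s ^ 4 := by ring
        _ ≤ 648 ^ r * 8 * Rt t * (81 * Ht (nx s)) := by gcongr
        _ = 648 ^ (r + 1) * (Ht (nx s) * Rt t) := by ring

lemma to_nat {η : ℝ} {r : ℕ} {H0 : ℝ} (hal : ∀ a b c : ℤ, Tri a b c → S r a b c →
    a.natAbs + b.natAbs = c.natAbs → H0 ≤ H a b c → AlmostCubes η a.natAbs b.natAbs c.natAbs)
    (t : ℤ × ℤ × ℤ) (hP : P r t) (hH : H0 ≤ Ht t) : ∃ a b c : ℕ, 0 < a ∧ 0 < b ∧ Nat.Coprime a b ∧
      a + b = c ∧ AlmostCubes η a b c ∧ (c : ℝ) = Ht t ∧ R (a * b * c) = Rt t := by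
  have core : ∀ a b c : ℤ, Tri a b c → S r a b c → a.natAbs + b.natAbs = c.natAbs → H0 ≤ H a b c →
      ∃ a' b' c' : ℕ, 0 < a' ∧ 0 < b' ∧ Nat.Coprime a' b' ∧ a' + b' = c' ∧ AlmostCubes η a' b' c' ∧
        (c' : ℝ) = H a b c ∧ R (a' * b' * c') = R (a * b * c).natAbs := by
    intro a b c hT hS hab hH
    refine ⟨a.natAbs, b.natAbs, c.natAbs, Int.natAbs_pos.2 hT.ha, Int.natAbs_pos.2 hT.hb,
      Int.isCoprime_iff_gcd_eq_one.1 hT.cop, hab, hal a b c hT hS hab hH, (H_eq hab).symm, ?_⟩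
    rw [Int.natAbs_mul, Int.natAbs_mul]
  obtain ⟨hT, hS⟩ := P_TT r t hP
  obtain ⟨a, b, c⟩ := t
  have hT' : Tri a b c := hT
  have hS' : S r a b c := hS
  have hH' : H0 ≤ H a b c := hH
  show ∃ a' b' c' : ℕ, 0 < a' ∧ 0 < b' ∧ Nat.Coprime a' b' ∧ a' + b' = c' ∧ AlmostCubes η a' b' c' ∧
        (c' : ℝ) = H a b c ∧ R (a' * b' * c') = R (a * b * c).natAbs
  rcases cases_sum hT'.sum with h1 | h1 | h1
  · exact core a b c hT' hS' h1 hH'
  · have := core b c a hT'.rot (S_rot hS') h1 (by rw [H_rot]; exact hH')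
    rwa [H_rot, show b * c * a = a * b * c by ring] at this
  · have := core c a b hT'.rot.rot (S_rot (S_rot hS')) h1 (by rw [H_rot, H_rot]; exact hH')
    rwa [H_rot, H_rot, show c * a * b = a * b * c by ring] at this

lemma two_lt : (1 : ℝ) + 1 < √(8 / 9) * Real.exp (59 / 30) := by
  have h1 : (2.7 : ℝ) < Real.exp (59 / 30) := by
    have h2 := Real.exp_one_gt_d9
    have h3 : Real.exp 1 ≤ Real.exp (59 / 30) := Real.exp_le_exp.2 (by norm_num)
    linarith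
  have h2 : (0.9 : ℝ) ≤ √(8 / 9) := by
    apply Real.le_sqrt_of_sq_le
    norm_num
  nlinarith

/-- **Large almost cubes** -/
theorem lower {η : ℝ} (hη : 0 < η) : ∃ κ : ℝ, 0 < κ ∧ ∀ X0 : ℝ, ∃ a b c : ℕ, 0 < a ∧ 0 < b ∧
    Nat.Coprime a b ∧ a + b = c ∧ AlmostCubes η a b c ∧ X0 ≤ c ∧
      (R (a * b * c) : ℝ) * Real.exp (κ * √(Real.log c) / Real.log (Real.log c)) < c := by
  obtain ⟨r, hr⟩ : ∃ r : ℕ, 3 / (4 : ℝ) ^ r < η := by
    obtain ⟨r, hr⟩ := pow_unbounded_of_one_lt (3 / η) (by norm_num : (1 : ℝ) < 4)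
    refine ⟨r, ?_⟩
    rw [div_lt_iff₀ hη] at hr
    rw [div_lt_iff₀ (by positivity)]
    linarith
  obtain ⟨H0, hH0, hal⟩ := almost hr
  refine ⟨1 / (3 * 2 ^ (r + 2)), by positivity, fun X0 => ?_⟩
  obtain ⟨B, hB⟩ : ∃ B : ℝ, B = max (max 81 H0) X0 := ⟨_, rfl⟩
  have hB1 : 81 ≤ B := by rw [hB]; exact (le_max_left _ _).trans (le_max_left _ _)
  have hB2 : H0 ≤ B := by rw [hB]; exact (le_max_right _ _).trans (le_max_left _ _)
  have hB3 : X0 ≤ B := by rw [hB]; exact le_max_right _ _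
  have hmany := Pool.Agent.W16.GT.many (K := 1) (K' := 1) one_pos one_pos two_lt
  -- `log Y ≤ Y ^ (1/6)`
  have hlog : ∀ᶠ Y : ℝ in atTop, Real.log Y ≤ Y ^ (1 / 6 : ℝ) := by
    have h1 := (isLittleO_log_rpow_atTop (show (0 : ℝ) < 1 / 6 by norm_num)).bound one_pos
    filter_upwards [h1, eventually_ge_atTop 1] with Y h2 h3
    rw [one_mul, Real.norm_eq_abs, Real.norm_eq_abs, abs_of_nonneg (Real.log_nonneg h3),
      abs_of_nonneg (Real.rpow_nonneg (by linarith) _)] at h2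
    exact h2
  have hbig : ∀ᶠ Y : ℝ in atTop, max (Real.log B) (2 * (r * Real.log 648)) ≤ Y ^ (1 / 3 : ℝ) :=
    (tendsto_rpow_atTop (show (0 : ℝ) < 1 / 3 by norm_num)).eventually_ge_atTop _
  obtain ⟨Y, ⟨⟨T, hT1, hT2⟩, hlY⟩, hY2, hY1⟩ :=
    ((hmany.and hlog).and (hbig.and (eventually_gt_atTop (Real.exp 1)))).exists
  have hY0 : 0 < Y := lt_trans (Real.exp_pos 1) hY1
  have hY1' : 1 ≤ Y := by
    have := Real.add_one_le_exp (1 : ℝ)
    linarith
  have hlY1 : 1 < Real.log Y := by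
    rw [Real.lt_log_iff_exp_lt hY0]
    exact hY1
  obtain ⟨φ, hφ⟩ : ∃ φ : ℝ, φ = √Y / Real.log Y := ⟨_, rfl⟩
  have hφY : Y ^ (1 / 3 : ℝ) ≤ φ := by
    rw [hφ, le_div_iff₀ (by linarith)]
    calc Y ^ (1 / 3 : ℝ) * Real.log Y ≤ Y ^ (1 / 3 : ℝ) * Y ^ (1 / 6 : ℝ) := by gcongr
      _ = √Y := by rw [← Real.rpow_add hY0, Real.sqrt_eq_rpow]; norm_num
  have hφB : Real.log B ≤ φ := ((le_max_left _ _).trans hY2).trans hφY
  have hφr : 2 * (r * Real.log 648) ≤ φ := ((le_max_right _ _).trans hY2).trans hφY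
  have hTne : T.Nonempty := by
    rw [← Finset.card_pos]
    have : (0 : ℝ) < T.card := lt_of_lt_of_le (Real.exp_pos _) hT1
    exact_mod_cast this
  obtain ⟨⟨a, b, c⟩, ht⟩ := hTne
  obtain ⟨⟨ha, hb, hc, habc, hcop, -, -⟩, hab, hle, hlt⟩ := hT2 _ ht
  simp only at ha hb hc habc hcop hab hle hlt
  rw [one_mul, ← hφ] at hlt
  obtain ⟨ρ, hρ⟩ : ∃ ρ : ℕ, ρ = R (a * b * c) := ⟨_, rfl⟩
  have hlt' : φ < Real.log c - Real.log ρ := by
    rw [hρ]
    exact hlt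
  have hρ1 : (1 : ℝ) ≤ ρ := by rw [hρ]; exact R_one_le _
  have hρ0 : 0 ≤ Real.log ρ := Real.log_nonneg hρ1
  have hc0 : (0 : ℝ) < c := by exact_mod_cast hc
  have hcB : B ≤ c := by
    rw [← Real.log_le_log_iff (by linarith) hc0]
    linarith
  -- the integer triple
  have hTri : TT ((a : ℤ), (b : ℤ), -(c : ℤ)) := by
    refine ⟨?_, by simpa using ha.ne', by simpa using hb.ne', by simpa using hc.ne',
      Nat.isCoprime_iff_coprime.2 hcop⟩
    show (a : ℤ) + b + -(c : ℤ) = 0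
    rw [← habc]
    push_cast
    ring
  have hHc : Ht ((a : ℤ), (b : ℤ), -(c : ℤ)) = c := by
    show H (a : ℤ) (b : ℤ) (-(c : ℤ)) = c
    rw [H_eq (by omega)]
    simp
  have hRc : Rt ((a : ℤ), (b : ℤ), -(c : ℤ)) = ρ := by
    show R ((a : ℤ) * b * (-(c : ℤ))).natAbs = ρ
    rw [hρ]
    congr 1
    rw [mul_neg, Int.natAbs_neg]
    exact_mod_cast Int.natAbs_natCast (a * b * c)
  obtain ⟨t', h1, h2, h3, h4⟩ := up r _ hTri (by rw [hHc]; linarith)
  rw [hHc] at h2 h3 h4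
  rw [hRc] at h4
  obtain ⟨a', b', c', g1, g2, g3, g4, g5, g6, g7⟩ := to_nat hal t' h1 (by linarith)
  refine ⟨a', b', c', g1, g2, g3, g4, g5, by rw [g6]; linarith, ?_⟩
  rw [← g6] at h2 h3 h4
  rw [← g7] at h4
  have hc'0 : (0 : ℝ) < c' := by linarith
  obtain ⟨ρ', hρ'⟩ : ∃ ρ' : ℕ, ρ' = R (a' * b' * c') := ⟨_, rfl⟩
  rw [← hρ'] at h4 ⊢
  have hρ'1 : (1 : ℝ) ≤ ρ' := by rw [hρ']; exact R_one_le _
  have e1 : Real.log c + Real.log ρ' ≤ r * Real.log 648 + (Real.log c' + Real.log ρ) := by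
    rw [← Real.log_mul hc0.ne' (by positivity), ← Real.log_mul hc'0.ne' (by positivity),
      ← Real.log_pow, ← Real.log_mul (by positivity) (by positivity)]
    exact Real.log_le_log (by positivity) h4
  have e2 : φ / 2 < Real.log c' - Real.log ρ' := by linarith
  have e3 : Real.log c' ≤ 4 ^ r * (2 * Y) := by
    have h5 : Real.log (2 * c') ≤ 4 ^ r * Real.log (2 * c) := by
      have := Real.log_le_log (by positivity) h3
      rw [Real.log_pow] at this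
      push_cast at this
      exact this
    have h6 : Real.log c' ≤ Real.log (2 * c') := Real.log_le_log hc'0 (by linarith)
    have h7 : Real.log (2 * c) ≤ 2 * Y := by
      rw [Real.log_mul (by norm_num) hc0.ne']
      have := Real.log_two_lt_d9
      linarith
    calc Real.log c' ≤ 4 ^ r * Real.log (2 * c) := h6.trans h5
      _ ≤ 4 ^ r * (2 * Y) := by gcongr
  have e4 : √(Real.log c') ≤ 2 ^ (r + 1) * √Y := by
    apply Real.sqrt_le_iff.2
    refine ⟨by positivity, ?_⟩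
    rw [mul_pow, Real.sq_sqrt hY0.le]
    have h5 : ((2 : ℝ) ^ (r + 1)) ^ 2 = 4 ^ r * 4 := by
      rw [← pow_mul, mul_comm, pow_mul]
      norm_num [pow_succ]
    rw [h5]
    have : (0 : ℝ) ≤ 4 ^ r * Y := by positivity
    linarith
  have e5 : 1 / 3 * Real.log Y ≤ Real.log (Real.log c') := by
    rw [← Real.log_rpow hY0]
    refine Real.log_le_log (Real.rpow_pos_of_pos hY0 _) ?_
    calc Y ^ (1 / 3 : ℝ) ≤ φ := hφY
      _ ≤ Real.log c := by linarith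
      _ ≤ Real.log c' := Real.log_le_log hc0 h2
  have e6 : 1 / (3 * 2 ^ (r + 2)) * √(Real.log c') / Real.log (Real.log c') ≤ φ / 2 := by
    rw [div_le_iff₀ (by linarith)]
    calc 1 / (3 * 2 ^ (r + 2)) * √(Real.log c') ≤ 1 / (3 * 2 ^ (r + 2)) * (2 ^ (r + 1) * √Y) := by gcongr
      _ = φ / 2 * (1 / 3 * Real.log Y) := by
        rw [hφ]
        have : Real.log Y ≠ 0 := by linarith
        field_simp
        ring
      _ ≤ φ / 2 * Real.log (Real.log c') := by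
        have : 0 ≤ φ / 2 := by
          have := Real.rpow_nonneg hY0.le (1 / 3 : ℝ)
          linarith
        gcongr
  have e7 : Real.log ρ' + 1 / (3 * 2 ^ (r + 2)) * √(Real.log c') / Real.log (Real.log c') <
      Real.log c' := by linarith
  calc (ρ' : ℝ) * Real.exp (1 / (3 * 2 ^ (r + 2)) * √(Real.log c') / Real.log (Real.log c')) =
        Real.exp (Real.log ρ' + 1 / (3 * 2 ^ (r + 2)) * √(Real.log c') / Real.log (Real.log c')) := by
          rw [Real.exp_add, Real.exp_log (by linarith)]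
    _ < Real.exp (Real.log c') := Real.exp_lt_exp.2 e7
    _ = c' := Real.exp_log hc'0

end Q241.AC
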